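import Mathlib

set_option autoImplicit false

namespace Pool.Agent.Helper76.UFL

/-- A loop on the set `Q`: `ldiv a b = a \ b` is the unique solution `x` of `a x = b`, and
`rdiv b a = b / a` is the unique solution `y` of `y a = b`. -/
structure LoopOn (Q : Type) where
  mul : Q → Q → Q
  one : Q
  ldiv : Q → Q → Q
  rdiv : Q → Q → Q
  mul_eq_iff_ldiv : ∀ a b x, mul a x = b ↔ x = ldiv a b
  mul_eq_iff_rdiv : ∀ a b y, mul y a = b ↔ y = rdiv b a
  one_mul : ∀ a, mul one a = a
  mul_one : ∀ a, mul a one = a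

namespace LoopOn

variable {Q : Type} (L : LoopOn Q)

/-- `x y = y x`. -/
def IsCommutative : Prop := ∀ x y, L.mul x y = L.mul y x

/-- Universally flexible: whenever `f, g` are bijections of `Q` such that the operation
`x ∘ y = f(x) g(y)` has a two-sided identity element `e` (that is, whenever `(Q, ∘)` is a loop
isotope of the loop), the operation `∘` satisfies `x ∘ (y ∘ x) = (x ∘ y) ∘ x`. -/
def IsUniversallyFlexible : Prop :=
  ∀ (f g : Equiv.Perm Q) (op : Q → Q → Q) (e : Q),
    (∀ x y, op x y = L.mul (f x) (g y)) → (∀ x, op e x = x) → (∀ x, op x e = x) →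
      ∀ x y, op x (op y x) = op (op x y) x

/-- The antiautomorphic inverse property: every `x` has a two-sided inverse `inv x`, and
`(x y)⁻¹ = y⁻¹ x⁻¹`. -/
def HasAAIP : Prop :=
  ∃ inv : Q → Q, (∀ x, L.mul x (inv x) = L.one ∧ L.mul (inv x) x = L.one) ∧
    ∀ x y, inv (L.mul x y) = L.mul (inv y) (inv x)

/-- The middle Bol identity `x ((y z) \ x) = (x / z) (y \ x)`. -/
def IsMiddleBol : Prop :=
  ∀ x y z, L.mul x (L.ldiv (L.mul y z) x) = L.mul (L.rdiv x z) (L.ldiv y x)

end LoopOn

end Pool.Agent.Helper76.UFL
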