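import Mathlib
import Pool.Agent.Helper76.UFL.Defs

set_option autoImplicit false

namespace Pool.Agent.Helper76.UFL

abbrev W : Type := ZMod 2 × ZMod 2
abbrev V : Type := W × ZMod 2
abbrev Q64 : Type := V × W × ZMod 2

/-- the fixed nonzero vector of `V`; `W` is `V` modulo this vector -/
def B (σ x : V) : W := if σ = ((0, 0), 1) then x.1 else 0

def om (α β : W) : ZMod 2 := α.1 * β.2 + α.2 * β.1

def mul (x y : Q64) : Q64 := (x.1 + y.1, x.2.1 + y.2.1 + B (x.1 + y.1) x.1,
  x.2.2 + y.2.2 + om x.2.1 y.2.1)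

def dv (a t : Q64) : Q64 := (t.1 + a.1, t.2.1 + a.2.1 + B t.1 a.1,
  t.2.2 + a.2.2 + om a.2.1 (t.2.1 + a.2.1 + B t.1 a.1))

theorem vself (v : V) : v + v = 0 := by revert v; decide
theorem wself (v : W) : v + v = 0 := by revert v; decide
theorem zself (v : ZMod 2) : v + v = 0 := by revert v; decide

theorem two_add_cancel {G : Type} [AddCommGroup G] (h : ∀ v : G, v + v = 0) (a b : G) :
    a + b + b = a := by rw [add_assoc, h, add_zero]

theorem char2_iff {G : Type} [AddCommGroup G] (h : ∀ v : G, v + v = 0) (a x t : G) :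
    a + x = t ↔ x = t + a := by
  constructor
  · rintro rfl
    rw [add_comm a x, two_add_cancel h]
  · rintro rfl
    rw [add_comm, two_add_cancel h]

theorem B_add (σ x y : V) : B σ (x + y) = B σ x + B σ y := by
  unfold B; split_ifs <;> simp

theorem B_self (σ : V) : B σ σ = 0 := by revert σ; decide

theorem B_comm (a b : V) : B (a + b) a = B (b + a) b := by revert a b; decide

theorem om_comm (α β : W) : om α β = om β α := by unfold om; ring

theorem om_add_left (α β γ : W) : om (α + β) γ = om α γ + om β γ := by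
  unfold om; simp only [Prod.fst_add, Prod.snd_add]; ring

theorem om_add_right (α β γ : W) : om γ (α + β) = om γ α + om γ β := by
  unfold om; simp only [Prod.fst_add, Prod.snd_add]; ring

theorem om_self (α : W) : om α α = 0 := by revert α; decide

theorem C2 (x y d : V) : om (B y d + B (x + y + d) x) (B x d) = 0 := by
  revert x y d; decide

theorem mul_comm' (x y : Q64) : mul x y = mul y x := by
  unfold mul
  rw [B_comm x.1 y.1, om_comm x.2.1 y.2.1, add_comm x.1 y.1, add_comm x.2.1 y.2.1,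
    add_comm x.2.2 y.2.2]

theorem mul_iff (a b x : Q64) : mul a x = b ↔ x = dv a b := by
  obtain ⟨a1, a2, a3⟩ := a
  obtain ⟨b1, b2, b3⟩ := b
  obtain ⟨x1, x2, x3⟩ := x
  simp only [mul, dv, Prod.mk.injEq]
  constructor
  · rintro ⟨h1, h2, h3⟩
    subst h1
    have e1 : x1 = a1 + x1 + a1 := by rw [add_comm a1 x1, two_add_cancel vself]
    have e2 : x2 = b2 + a2 + B (a1 + x1) a1 := by
      rw [← h2]
      have := wself a2
      have := wself (B (a1 + x1) a1)
      calc x2 = x2 + 0 + 0 := by simp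
        _ = x2 + (a2 + a2) + (B (a1 + x1) a1 + B (a1 + x1) a1) := by rw [wself, wself]
        _ = _ := by abel
    refine ⟨e1, e2, ?_⟩
    rw [← e2, ← h3]
    calc x3 = x3 + 0 + 0 := by simp
      _ = x3 + (a3 + a3) + (om a2 x2 + om a2 x2) := by rw [zself, zself]
      _ = _ := by abel
  · rintro ⟨rfl, rfl, rfl⟩
    have e1 : a1 + (b1 + a1) = b1 := by rw [add_comm a1, two_add_cancel vself]
    rw [e1]
    refine ⟨rfl, ?_, ?_⟩
    · calc a2 + (b2 + a2 + B b1 a1) + B b1 a1 = b2 + (a2 + a2) + (B b1 a1 + B b1 a1) := by abel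
        _ = _ := by rw [wself, wself]; simp
    · calc a3 + (b3 + a3 + om a2 (b2 + a2 + B b1 a1)) + om a2 (b2 + a2 + B b1 a1) =
            b3 + (a3 + a3) + (om a2 (b2 + a2 + B b1 a1) + om a2 (b2 + a2 + B b1 a1)) := by abel
        _ = _ := by rw [zself, zself]; simp

/-- the loop of order 64 -/
def L64 : LoopOn Q64 where
  mul := mul
  one := 0
  ldiv := dv
  rdiv t a := dv a t
  mul_eq_iff_ldiv := mul_iff
  mul_eq_iff_rdiv a b y := by rw [mul_comm', mul_iff]
  one_mul a := by
    obtain ⟨a1, a2, a3⟩ := a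
    simp only [mul, Prod.fst_zero, Prod.snd_zero, zero_add]
    have h1 : B a1 0 = 0 := by unfold B; split_ifs <;> rfl
    have h2 : om 0 a2 = 0 := by unfold om; simp
    rw [h1, h2, add_zero, add_zero]
  mul_one a := by
    rw [mul_comm']
    obtain ⟨a1, a2, a3⟩ := a
    simp only [mul, Prod.fst_zero, Prod.snd_zero, zero_add]
    have h1 : B a1 0 = 0 := by unfold B; split_ifs <;> rfl
    have h2 : om 0 a2 = 0 := by unfold om; simp
    rw [h1, h2, add_zero, add_zero]

theorem W_key (Z P R S : W) :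
    om (Z + P + S) (Z + R) + om (Z + R + S) (Z + P) = om S (P + R) := by
  revert Z P R S; decide


theorem W_char2 {L R : W} (h : L + R = 0) : L = R := by
  have : L + R + R = R := by rw [h, zero_add]
  rwa [two_add_cancel wself] at this

theorem Z_char2 {L R : ZMod 2} (h : L + R = 0) : L = R := by
  have : L + R + R = R := by rw [h, zero_add]
  rwa [two_add_cancel zself] at this

theorem flex (a b x y : Q64) :
    mul (dv a x) (dv b (mul (dv a y) (dv b x))) =
      mul (dv a (mul (dv a x) (dv b y))) (dv b x) := by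
  obtain ⟨a1, a2, a3⟩ := a
  obtain ⟨b1, b2, b3⟩ := b
  obtain ⟨x1, x2, x3⟩ := x
  obtain ⟨y1, y2, y3⟩ := y
  -- first components
  have hn : (y1 + a1) + (x1 + b1) = x1 + y1 + (a1 + b1) := by abel
  have hm : (x1 + a1) + (y1 + b1) = x1 + y1 + (a1 + b1) := by abel
  have hk : x1 + y1 + (a1 + b1) + b1 = x1 + y1 + a1 := by
    rw [← add_assoc, two_add_cancel vself]
  have hl : x1 + y1 + (a1 + b1) + a1 = x1 + y1 + b1 := by
    rw [add_comm a1 b1, ← add_assoc, two_add_cancel vself]
  have hpk : (x1 + a1) + (x1 + y1 + a1) = y1 := by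
    calc (x1 + a1) + (x1 + y1 + a1) = y1 + (x1 + x1) + (a1 + a1) := by abel
      _ = y1 := by rw [vself, vself, add_zero, add_zero]
  have hlq : (x1 + y1 + b1) + (x1 + b1) = y1 := by
    calc (x1 + y1 + b1) + (x1 + b1) = y1 + (x1 + x1) + (b1 + b1) := by abel
      _ = y1 := by rw [vself, vself, add_zero, add_zero]
  simp only [mul, dv, hn, hm, hk, hl, hpk, hlq]
  set n1 := x1 + y1 + (a1 + b1) with hn1
  -- relation from `B n1 n1 = 0`
  have hrel : B n1 x1 + B n1 y1 + (B n1 a1 + B n1 b1) = 0 := by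
    have := B_self n1
    conv at this => lhs; arg 2; rw [hn1]
    rwa [B_add, B_add, B_add] at this
  have hnb : B n1 b1 = B n1 x1 + B n1 y1 + B n1 a1 := by
    apply (W_char2 ?_).symm
    rw [← hrel]; abel
  have hyy : B y1 y1 = 0 := B_self y1
  simp only [B_add, hnb, hyy]
  set P := B x1 a1
  set R := B x1 b1
  set Ya := B y1 a1
  set Yb := B y1 b1
  set Yx := B y1 x1
  set Nx := B n1 x1
  set Ny := B n1 y1
  set Na := B n1 a1
  have hC : om (Ya + Yb + Nx) (P + R) = 0 := by
    have := C2 x1 y1 (a1 + b1)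
    rwa [B_add, B_add] at this
  refine Prod.ext rfl (Prod.ext ?_ ?_)
  · apply W_char2
    apply Prod.ext
    · simp only [Prod.fst_add, Prod.fst_zero]
      ring_nf
      reduce_mod_char
    · simp only [Prod.snd_add, Prod.snd_zero]
      ring_nf
      reduce_mod_char
  · apply Z_char2
    rw [← hC]
    apply Z_char2
    simp only [om, Prod.fst_add, Prod.snd_add]
    ring_nf
    reduce_mod_char

theorem isUF : L64.IsUniversallyFlexible := by
  intro f g op e hop h1 h2 x y
  have hg : ∀ x, g x = dv (f e) x := fun x => by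
    rw [← mul_iff]
    have := h1 x
    rw [hop] at this
    exact this
  have hf : ∀ x, f x = dv (g e) x := fun x => by
    rw [← mul_iff, mul_comm']
    have := h2 x
    rw [hop] at this
    exact this
  have hop' : ∀ x y, op x y = mul (dv (g e) x) (dv (f e) y) := fun x y => by
    rw [hop, hf x, hg y]; rfl
  rw [hop' x (op y x), hop' y x, hop' (op x y) x, hop' x y]
  exact flex _ _ _ _

theorem sq (x : Q64) : mul x x = 0 := by
  obtain ⟨x1, x2, x3⟩ := x
  simp only [mul, vself, wself, zself, om_self]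
  have : B 0 x1 = 0 := by
    unfold B
    rw [if_neg]
    decide
  rw [this]
  rfl

theorem main : ∃ (Q : Type) (L : LoopOn Q), Nat.card Q = 64 ∧ L.IsCommutative ∧
    L.IsUniversallyFlexible ∧ L.HasAAIP ∧ (∀ x, L.mul x x = L.one) ∧ ¬ L.IsMiddleBol := by
  refine ⟨Q64, L64, ?_, mul_comm', isUF, ⟨id, fun x => ⟨sq x, sq x⟩, fun x y => mul_comm' x y⟩,
    sq, ?_⟩
  · simp [Nat.card_eq_fintype_card, Fintype.card_prod, ZMod.card]
  · intro h
    have := h (((0, 0), 1), (0, 0), 0) (((1, 0), 0), (0, 0), 0) (((0, 1), 0), (0, 0), 0)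
    revert this
    decide

end Pool.Agent.Helper76.UFL
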